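import Pool.Agent.MP_5c28a4_al.H89S.Base8

set_option autoImplicit false

namespace Pool.Agent.MP_5c28a4_al.H89S

open scoped commutatorElement

namespace UpA

variable {G : Type} [Group G]

theorem comm_le_iff {A B Z : Subgroup G} [Z.Normal] : ⁅A, B⁆ ≤ Z ↔ B ≤ cz Z ⊤ (A : Set G) := by
  rw [Subgroup.commutator_le]
  exact ⟨fun h b hb => mem_cz.2 ⟨Subgroup.mem_top b, fun a ha => h a ha b hb⟩,
    fun h a ha b hb => (mem_cz.1 (h hb)).2 a ha⟩

theorem comm_sup_right {A B B' Z : Subgroup G} [Z.Normal] (h : ⁅A, B⁆ ≤ Z) (h' : ⁅A, B'⁆ ≤ Z) :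
    ⁅A, B ⊔ B'⁆ ≤ Z :=
  comm_le_iff.2 (sup_le (comm_le_iff.1 h) (comm_le_iff.1 h'))

theorem comm_sup_left {A A' B Z : Subgroup G} [Z.Normal] (h : ⁅A, B⁆ ≤ Z) (h' : ⁅A', B⁆ ≤ Z) :
    ⁅A ⊔ A', B⁆ ≤ Z := by
  rw [Subgroup.commutator_comm] at h h' ⊢
  exact comm_sup_right h h'

theorem cent {L : ℕ → Subgroup G} {i : ℕ} [(L (i + 1)).Normal] (m : ℕ) : m ≠ 0 →
    (∀ p, p.Prime → p ∣ m → PiC L i p 0 1) → (⁅L i, L i⁆ ≤ L (i + 1)) →
    ∀ x ∈ L 0, x ^ m ∈ L i → x ∈ cz (L (i + 1)) ⊤ (L i : Set G) := by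
  induction m using Nat.recOnPosPrimePosCoprime with
  | zero => exact fun h => absurd rfl h
  | one => exact fun _ _ h x _ hx => comm_le_iff.1 h (by simpa using hx)
  | prime_pow p n hp hn =>
    intro _ h _ x hx hx'
    have h1 := h p hp (dvd_pow_self p hn.ne') (Subgroup.zpowers x)
      ((Subgroup.zpowers_le).2 hx) fun y hy => by
        obtain ⟨k, rfl⟩ := Subgroup.mem_zpowers_iff.1 hy
        refine ⟨n, ?_⟩
        rw [← zpow_natCast, ← zpow_mul, mul_comm, zpow_mul, zpow_natCast]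
        exact zpow_mem hx' k
    rw [Subgroup.commutator_comm] at h1
    refine comm_le_iff.1 h1 ?_
    simpa using pow_mem_mu (Subgroup.zpowers x) 0 1 (Subgroup.mem_zpowers x)
  | coprime a b ha hb hab iha ihb =>
    intro _ h hc x hx hx'
    refine mem_of_coprime hab
      (ihb (by omega) (fun p hp hd => h p hp (hd.mul_left a)) hc _ (pow_mem hx a) ?_)
      (iha (by omega) (fun p hp hd => h p hp (hd.mul_right b)) hc _ (pow_mem hx b) ?_)
    · rwa [← pow_mul]
    · rwa [← pow_mul, mul_comm]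

end UpA

theorem up : BFin → BSt → SUp := by
  intro hF hS S h q c i e 𝒮 G _ L D hpi
  have tw := D.tow
  have n0 := tw.normal 0
  have ni := tw.normal i
  have ni' := tw.normal (i + 1)
  obtain ⟨lf, hn⟩ := hF.towerExp G h q L tw
  obtain ⟨P, P', nP, nP', mP, mP', hsup, hinf, -⟩ :=
    hS.part G (L 0) (L i) e (q i) (tw.prime i) n0 ni (tw.le (Nat.zero_le i)) lf D.nil
  have hA : ⁅L i, P'⁆ ≤ L (i + 1) := by
    refine UpA.comm_le_iff.2 fun x hx => ?_
    obtain ⟨hx0, m, hm, hxm⟩ := (mP' x).1 hx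
    have d1 : orderOf (QuotientGroup.mk' (L i) x) ∣ m := by
      rw [orderOf_dvd_iff_pow_eq_one, ← map_pow]
      exact (QuotientGroup.eq_one_iff _).2 hxm
    have d2 : orderOf (QuotientGroup.mk' (L i) x) ∣ ∏ a ∈ Finset.range h, q a := by
      rw [orderOf_dvd_iff_pow_eq_one, ← map_pow, hn x hx0, map_one]
    refine UpA.cent (orderOf (QuotientGroup.mk' (L i) x)) ?_ (fun p hp hd => ?_) (tw.comm i) x
      hx0 ?_
    · exact ne_zero_of_dvd_ne_zero (Finset.prod_ne_zero_iff.2 fun a _ => (tw.prime a).ne_zero) d2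
    · obtain ⟨a, ha, h1⟩ := (Prime.dvd_finsetProd_iff hp.prime _).1 (hd.trans d2)
      obtain rfl := (Nat.prime_dvd_prime_iff_eq hp (tw.prime a)).1 h1
      refine hpi a (Finset.mem_range.1 ha) fun he => ?_
      have h2 : q a ∣ Nat.gcd m (q i) := Nat.dvd_gcd (hd.trans d1) (he ▸ dvd_rfl)
      rw [hm.gcd_eq_one] at h2
      exact hp.not_dvd_one h2
    · rw [← QuotientGroup.eq_one_iff]
      exact (map_pow (QuotientGroup.mk' (L i)) x _).trans (pow_orderOf_eq_one _)
  have hB : ∀ t, (L 0).lowerCentralSeries (e + t) ≤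
      (P.lowerCentralSeries t ⊓ L i) ⊔ L (i + 1) := by
    intro t
    induction t with
    | zero =>
      exact le_sup_of_le_left (le_inf (D.nil.trans (hinf.symm.le.trans inf_le_left)) D.nil)
    | succ t ih =>
      refine (Subgroup.commutator_mono ih hsup.symm.le).trans
        (UpA.comm_sup_left (UpA.comm_sup_right ?_ ?_) ?_)
      · exact le_sup_of_le_left (le_inf (Subgroup.commutator_mono inf_le_left le_rfl)
          ((Subgroup.commutator_mono inf_le_right le_rfl).trans (Subgroup.commutator_le_left _ _)))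
      · exact le_sup_of_le_right ((Subgroup.commutator_mono inf_le_right le_rfl).trans hA)
      · exact le_sup_of_le_right (Subgroup.commutator_le_left _ _)
  refine (hB c).trans (sup_le (inf_le_left.trans ?_) le_rfl)
  refine hS.glob G (L 0) P (L (i + 1)) c (q i) (tw.prime i) lf D.st (hsup ▸ le_sup_left) ni'
    fun x hx => ?_
  obtain ⟨-, k, hk⟩ := (mP x).1 hx
  exact ⟨k + 1, by rw [pow_succ, pow_mul]; exact tw.pow i _ hk⟩

end Pool.Agent.MP_5c28a4_al.H89S
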